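import Mathlib

/-! MP_e59eee_co: an algebraic poset that is not weakly atomic. -/

namespace Pool.Agent.Results.MP_e59eee_co.NotWeaklyAtomic

universe u

/-- Directed subsets: nonempty, and any two elements have an upper bound in the subset. -/
def IsDir {P : Type u} [PartialOrder P] (D : Set P) : Prop :=
  D.Nonempty ∧ ∀ a ∈ D, ∀ b ∈ D, ∃ c ∈ D, a ≤ c ∧ b ≤ c

/-- Up-complete posets: every directed subset has a join. -/
def UpComplete (P : Type u) [PartialOrder P] : Prop :=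
  ∀ D : Set P, IsDir D → ∃ s, IsLUB D s

/-- Compact elements. -/
def IsCpt {P : Type u} [PartialOrder P] (c : P) : Prop :=
  ∀ D : Set P, IsDir D → ∀ s, IsLUB D s → c ≤ s → ∃ d ∈ D, c ≤ d

/-- Algebraic posets: up-complete, and every element is the join of a directed set of compact
elements. -/
def IsAlgebraicPoset (P : Type u) [PartialOrder P] : Prop :=
  UpComplete P ∧ ∀ x : P, ∃ D : Set P, IsDir D ∧ (∀ d ∈ D, IsCpt d) ∧ IsLUB D x

/-- Weakly atomic posets: every nontrivial interval contains a covering pair. -/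
def IsWeaklyAtomic (P : Type u) [PartialOrder P] : Prop :=
  ∀ x y : P, x < y → ∃ a b : P, x ≤ a ∧ a < b ∧ b ≤ y ∧ ¬ ∃ c : P, a < c ∧ c < b

section ideals

variable {Q : Type u} [PartialOrder Q]

/-- directed union of ideals -/
def unionIdeal (D : Set (Order.Ideal Q)) (hD : IsDir D) : Order.Ideal Q where
  carrier := {x | ∃ d ∈ D, x ∈ d}
  lower' := by
    rintro a b hba ⟨d, hd, ha⟩
    exact ⟨d, hd, d.lower hba ha⟩
  nonempty' := by
    obtain ⟨d, hd⟩ := hD.1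
    obtain ⟨x, hx⟩ := d.nonempty
    exact ⟨x, d, hd, hx⟩
  directed' := by
    rintro a ⟨d, hd, ha⟩ b ⟨d', hd', hb⟩
    obtain ⟨c, hc, h1, h2⟩ := hD.2 d hd d' hd'
    obtain ⟨z, hz, h3, h4⟩ := c.directed a (h1 ha) b (h2 hb)
    exact ⟨z, ⟨c, hc, hz⟩, h3, h4⟩

theorem isLUB_union (D : Set (Order.Ideal Q)) (hD : IsDir D) : IsLUB D (unionIdeal D hD) := by
  constructor
  · intro d hd x hx
    exact ⟨d, hd, hx⟩
  · rintro s hs x ⟨d, hd, hx⟩
    exact hs hd hx

theorem ideal_algebraic : IsAlgebraicPoset (Order.Ideal Q) := by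
  refine ⟨fun D hD => ⟨_, isLUB_union D hD⟩, fun I => ?_⟩
  refine ⟨{J | ∃ x ∈ I, J = Order.Ideal.principal x}, ⟨?_, ?_⟩, ?_, ?_, ?_⟩
  · obtain ⟨x, hx⟩ := I.nonempty
    exact ⟨_, x, hx, rfl⟩
  · rintro _ ⟨x, hx, rfl⟩ _ ⟨y, hy, rfl⟩
    obtain ⟨z, hz, h1, h2⟩ := I.directed x hx y hy
    exact ⟨_, ⟨z, hz, rfl⟩, Order.Ideal.principal_le_iff.2 h1, Order.Ideal.principal_le_iff.2 h2⟩
  · rintro _ ⟨x, hx, rfl⟩ D hD s hs hle
    have h1 : s = unionIdeal D hD := hs.unique (isLUB_union D hD)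
    rw [Order.Ideal.principal_le_iff, h1] at hle
    obtain ⟨d, hd, hxd⟩ := hle
    exact ⟨d, hd, Order.Ideal.principal_le_iff.2 hxd⟩
  · rintro _ ⟨x, hx, rfl⟩
    exact Order.Ideal.principal_le_iff.2 hx
  · intro s hs x hx
    exact hs ⟨x, hx, rfl⟩ (Order.Ideal.mem_principal_self)

end ideals

/-- The poset `ℕ × ℝ` with `(n, s) < (n', s')` iff `n < n'` and `s < s'`. -/
@[ext] structure Q : Type where
  n : ℕ
  s : ℝ

instance : PartialOrder Q where
  le a b := a = b ∨ (a.n < b.n ∧ a.s < b.s)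
  le_refl a := Or.inl rfl
  le_trans := by
    rintro a b c (rfl | h1) (rfl | h2)
    · exact Or.inl rfl
    · exact Or.inr h2
    · exact Or.inr h1
    · exact Or.inr ⟨h1.1.trans h2.1, h1.2.trans h2.2⟩
  le_antisymm := by
    rintro a b (rfl | h1) (h2 | h2)
    · rfl
    · rfl
    · exact h2.symm
    · exact absurd (h1.1.trans h2.1) (lt_irrefl _)

theorem le_iff (a b : Q) : a ≤ b ↔ (a = b ∨ (a.n < b.n ∧ a.s < b.s)) := Iff.rfl

theorem le_n {a b : Q} (h : a ≤ b) : a.n ≤ b.n := by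
  rcases h with rfl | h
  · exact le_rfl
  · exact h.1.le

theorem le_s {a b : Q} (h : a ≤ b) : a.s ≤ b.s := by
  rcases h with rfl | h
  · exact le_rfl
  · exact h.2.le

theorem lt_s {a b : Q} (h : a ≤ b) (hn : a.n < b.n) : a.s < b.s := by
  rcases h with rfl | h
  · exact absurd hn (lt_irrefl _)
  · exact h.2

/-- the ideal `{(n, s) : s < r}` -/
def I (r : ℝ) : Order.Ideal Q where
  carrier := {q | q.s < r}
  lower' := by
    intro a b hba ha
    exact lt_of_le_of_lt (le_s hba) ha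
  nonempty' := ⟨⟨0, r - 1⟩, by
    change r - 1 < r
    linarith⟩
  directed' := by
    intro a ha b hb
    have ha' : a.s < r := ha
    have hb' : b.s < r := hb
    have hmax : max a.s b.s < r := max_lt ha' hb'
    obtain ⟨t, h1, h2⟩ := exists_between hmax
    refine ⟨⟨a.n + b.n + 1, t⟩, h2, Or.inr ⟨?_, ?_⟩, Or.inr ⟨?_, ?_⟩⟩
    · change a.n < a.n + b.n + 1
      omega
    · exact lt_of_le_of_lt (le_max_left _ _) h1
    · change b.n < a.n + b.n + 1
      omega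
    · exact lt_of_le_of_lt (le_max_right _ _) h1

theorem mem_I (r : ℝ) (q : Q) : q ∈ I r ↔ q.s < r := Iff.rfl

theorem I_lt {r t : ℝ} (h : r < t) : I r < I t := by
  refine lt_of_le_of_ne (fun q hq => lt_trans hq h) ?_
  intro heq
  have h1 : (⟨0, r⟩ : Q) ∈ I t := h
  rw [← heq] at h1
  exact lt_irrefl r h1

theorem eq_I (J : Order.Ideal Q) (h0 : I 0 ≤ J) (h1 : J ≤ I 1) : ∃ r, J = I r := by
  have hne : (Set.Nonempty {s : ℝ | ∃ q ∈ J, q.s = s}) := by
    obtain ⟨q, hq⟩ := J.nonempty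
    exact ⟨q.s, q, hq, rfl⟩
  have hbdd : BddAbove {s : ℝ | ∃ q ∈ J, q.s = s} := by
    refine ⟨1, ?_⟩
    rintro _ ⟨q, hq, rfl⟩
    exact le_of_lt (h1 hq)
  -- any element of `J` has an upper bound in `J` with large first coordinate
  have hup : ∀ q ∈ J, ∀ k : ℕ, ∃ q' ∈ J, q ≤ q' ∧ k ≤ q'.n := by
    intro q hq k
    have hk : (⟨k, -1⟩ : Q) ∈ J := h0 (by
      rw [mem_I]
      norm_num)
    obtain ⟨z, hz, h3, h4⟩ := J.directed q hq _ hk
    exact ⟨z, hz, h3, le_n h4⟩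
  refine ⟨sSup {s : ℝ | ∃ q ∈ J, q.s = s}, ?_⟩
  apply le_antisymm
  · intro q hq
    obtain ⟨q', hq', h3, h4⟩ := hup q hq (q.n + 1)
    have h5 : q.s < q'.s := lt_s h3 (by omega)
    exact lt_of_lt_of_le h5 (le_csSup hbdd ⟨q', hq', rfl⟩)
  · intro q hq
    rw [mem_I] at hq
    obtain ⟨_, ⟨p, hp, rfl⟩, hqp⟩ := exists_lt_of_lt_csSup hne hq
    obtain ⟨q', hq', h3, h4⟩ := hup p hp (q.n + 1)
    have h5 : q ≤ q' := Or.inr ⟨by omega, lt_of_lt_of_le hqp (le_s h3)⟩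
    exact J.lower h5 hq'

/-- There is an algebraic poset that is not weakly atomic. -/
theorem result : ∃ (P : Type) (_ : PartialOrder P), IsAlgebraicPoset P ∧ ¬ IsWeaklyAtomic P := by
  refine ⟨Order.Ideal Q, inferInstance, ideal_algebraic, ?_⟩
  intro hwa
  obtain ⟨a, b, ha, hab, hb, hno⟩ := hwa (I 0) (I 1) (I_lt one_pos)
  obtain ⟨r, rfl⟩ := eq_I a ha (hab.le.trans hb)
  obtain ⟨t, rfl⟩ := eq_I b (ha.trans hab.le) hb
  have hrt : r < t := by
    by_contra h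
    rw [not_lt] at h
    exact absurd hab (not_lt_of_ge (fun q hq => lt_of_lt_of_le hq h))
  obtain ⟨m, h1, h2⟩ := exists_between hrt
  exact hno ⟨I m, I_lt h1, I_lt h2⟩

end Pool.Agent.Results.MP_e59eee_co.NotWeaklyAtomic
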